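import Mathlib
import Pool.Agent.NPC.Defs

/-!
# Circuits with descriptions: definitions
-/

namespace Pool.Agent.NPC.H559U

/-- A gate of fan-in two: its truth table (the values at `00`, `01`, `10`, `11`), and the numbers
of the two vertices it reads. -/
abbrev Gate : Type := (Bool × Bool × Bool × Bool) × ℕ × ℕ

/-- The Boolean function of a gate. -/
def Gate.fn (g : Gate) (a b : Bool) : Bool :=
  bif a then (bif b then g.1.2.2.2 else g.1.2.2.1) else (bif b then g.1.2.1 else g.1.1)

/-- The values of the vertices of a circuit on the input `x`: first the inputs, then the gates in
their order; every gate reads two earlier vertices. -/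
def values (gates : List Gate) (x : List Bool) : List Bool :=
  gates.foldl (fun v g => v ++ [g.fn (v.getD g.2.1 false) (v.getD g.2.2 false)]) x

/-- A Boolean circuit with `n` inputs: vertices `0, ..., n - 1` are the inputs, vertex `n + k` is
the `k`-th gate, which reads two vertices with smaller numbers; `out` is the output vertex. -/
structure Circuit (n : ℕ) where
  gates : List Gate
  out : ℕ
  wf : ∀ (k : ℕ) (g : Gate), gates[k]? = some g → g.2.1 < n + k ∧ g.2.2 < n + k
  out_lt : out < n + gates.length

/-- The number of gates. -/
def Circuit.size {n : ℕ} (C : Circuit n) : ℕ := C.gates.length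

/-- The output on the input `x`. -/
def Circuit.eval {n : ℕ} (C : Circuit n) (x : List Bool) : Bool :=
  (values C.gates x).getD C.out false

/-- The circuit decides the language `L` on inputs of length `n`. -/
def Circuit.Computes {n : ℕ} (C : Circuit n) (L : Set (List Bool)) : Prop :=
  ∀ x : List Bool, x.length = n → (C.eval x = true ↔ x ∈ L)

/-- The description of a circuit: the bit string coding the number of the output vertex and the
list of gates (numbers are coded in binary). -/
def Circuit.desc {n : ℕ} (C : Circuit n) : List Bool := bits (C.out, C.gates)

/-- For all large `n` there is a circuit with at most `s n` gates that decides `L` on inputs of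
length `n` and whose description can be computed, bit by bit, in the class `𝒞` with at most `a n`
bits of advice: for one language `W` in `𝒞`, the `i`-th bit of the description is `1` if and
only if `(1^n, i, α)` is in `W`, where the advice `α` depends only on `n`. -/
def HasUniformCircuits (𝒞 : Set (Set (List Bool))) (a s : ℕ → ℕ) (L : Set (List Bool)) : Prop :=
  ∃ W ∈ 𝒞, ∃ n₀, ∀ n ≥ n₀, ∃ (C : Circuit n) (α : List Bool),
    C.size ≤ s n ∧ C.Computes L ∧ α.length ≤ a n ∧
      ∀ (i : ℕ) (hi : i < C.desc.length),
        (bits (List.replicate n (), i, α) ∈ W ↔ C.desc[i] = true)

end Pool.Agent.NPC.H559U
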