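import Mathlib
import Pool.Agent.H559R3.UDefs

/-!
# Nondeterministic circuits with descriptions: definitions
-/

namespace Pool.Agent.NPC.H559U

/-- A nondeterministic Boolean circuit with `n` inputs and `guess` guess bits: vertices
`0, ..., n - 1` are the inputs, the next `guess` vertices are the guess bits, and the vertex
`n + guess + k` is the `k`-th gate, which reads two vertices with smaller numbers. -/
structure NCircuit (n : ℕ) where
  guess : ℕ
  gates : List Gate
  out : ℕ
  wf : ∀ (k : ℕ) (g : Gate), gates[k]? = some g →
    g.2.1 < n + guess + k ∧ g.2.2 < n + guess + k
  out_lt : out < n + guess + gates.length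

/-- The number of guess bits and gates. -/
def NCircuit.size {n : ℕ} (C : NCircuit n) : ℕ := C.guess + C.gates.length

/-- The circuit accepts `x`: some setting of the guess bits makes the output vertex true. -/
def NCircuit.Accepts {n : ℕ} (C : NCircuit n) (x : List Bool) : Prop :=
  ∃ w : List Bool, w.length = C.guess ∧ (values C.gates (x ++ w)).getD C.out false = true

/-- The circuit decides the language `L` on inputs of length `n`. -/
def NCircuit.Computes {n : ℕ} (C : NCircuit n) (L : Set (List Bool)) : Prop :=
  ∀ x : List Bool, x.length = n → (C.Accepts x ↔ x ∈ L)

/-- The description of a nondeterministic circuit: the bit string coding the number of guess bits,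
the number of the output vertex and the list of gates (numbers are coded in binary). -/
def NCircuit.desc {n : ℕ} (C : NCircuit n) : List Bool := bits (C.guess, C.out, C.gates)

/-- For all large `n` there is a nondeterministic circuit of size at most `s n` that decides `L`
on inputs of length `n` and whose description can be computed, bit by bit, in the class `𝒟` with at
most `a n` bits of advice: for one language `W` in `𝒟`, the `i`-th bit of the description is `1` if
and only if `(1^n, i, α)` is in `W`, where the advice `α` depends only on `n`. -/
def HasUniformNCircuits (𝒟 : Set (Set (List Bool))) (a s : ℕ → ℕ) (L : Set (List Bool)) : Prop :=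
  ∃ W ∈ 𝒟, ∃ n₀, ∀ n ≥ n₀, ∃ (C : NCircuit n) (α : List Bool),
    C.size ≤ s n ∧ C.Computes L ∧ α.length ≤ a n ∧
      ∀ (i : ℕ) (hi : i < C.desc.length),
        (bits (List.replicate n (), i, α) ∈ W ↔ C.desc[i] = true)

end Pool.Agent.NPC.H559U
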