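import Mathlib
import Pool.Agent.NPC.Dec
import Pool.Agent.H559R3.UDefs

/-!
# The decoder of compressed circuits, and its running time
-/

namespace Pool.Agent.NPC.H559U

/-! ### Padding -/

/-- Padding to length `m` in front. -/
def pad (m : ℕ) (l : List Bool) : List Bool :=
  List.replicate (m - (l.length + 1)) false ++ true :: l

theorem length_pad {m : ℕ} {l : List Bool} (h : l.length + 1 ≤ m) : (pad m l).length = m := by
  simp [pad]; omega

/-- One step of removing the padding. -/
def stripStep (s : Bool × List Bool) (b : Bool) : Bool × List Bool :=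
  bif s.1 then (true, b :: s.2) else (b, s.2)

/-- Removing the padding. -/
def unpad (x : List Bool) : List Bool := (x.foldl stripStep (false, [])).2.reverse

theorem foldl_strip_true : ∀ (l acc : List Bool),
    l.foldl stripStep (true, acc) = (true, l.reverse ++ acc)
  | [], acc => by simp
  | b :: l, acc => by
    rw [List.foldl_cons]
    simp only [stripStep, cond_true]
    rw [foldl_strip_true l (b :: acc)]
    simp

theorem foldl_strip_false : ∀ (k : ℕ), (List.replicate k false).foldl stripStep (false, []) =
    (false, [])
  | 0 => rfl
  | k + 1 => by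
    rw [List.replicate_succ, List.foldl_cons]
    simp only [stripStep, cond_false]
    exact foldl_strip_false k

theorem unpad_pad (m : ℕ) (l : List Bool) : unpad (pad m l) = l := by
  unfold unpad pad
  rw [List.foldl_append, foldl_strip_false, List.foldl_cons]
  simp only [stripStep, cond_false]
  rw [foldl_strip_true]
  simp

theorem sz_foldl_strip (x : List Bool) : ∀ (s : Bool × List Bool),
    sz (x.foldl stripStep s) + 1 ≤ sz x + sz s := by
  induction x with
  | nil => intro s; simp
  | cons b x ih =>
    intro s
    obtain ⟨c, s⟩ := s
    rw [List.foldl_cons]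
    have h1 := ih (stripStep (c, s) b)
    have h2 : sz (stripStep (c, s) b) ≤ sz (c, s) + sz b + 1 := by
      cases c with
      | false =>
        simp only [stripStep, cond_false, sz_pair, sz_false]
        omega
      | true =>
        simp only [stripStep, cond_true, sz_pair, sz_true, sz_list_cons]
        omega
    simp only [sz_list_cons]
    omega

theorem poly_unpad : Poly unpad := by
  unfold unpad
  refine Poly.reverse (Poly.snd ?_)
  refine Poly.foldl (F := fun _ => stripStep) Poly.id (Poly.const _) ?_
    (Polynomial.X + 3) ?_
  · unfold stripStep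
    exact Poly.cond (Poly.fst (Poly.fst (Poly.snd Poly.id)))
      (Poly.pair (Poly.const _) (Poly.cons (Poly.snd (Poly.snd Poly.id))
        (Poly.snd (Poly.fst (Poly.snd Poly.id)))))
      (Poly.pair (Poly.snd (Poly.snd Poly.id)) (Poly.snd (Poly.fst (Poly.snd Poly.id))))
  · intro x k _
    have h1 := sz_foldl_strip (x.take k) (false, [])
    have h2 := Poly.sz_take_le x k
    simp only [sz_pair, sz_false, sz_list_nil] at h1
    simp only [Polynomial.eval_add, Polynomial.eval_X, Polynomial.eval_ofNat]
    omega

variable {α : Type} [TEnc α]

theorem poly_pad {m : α → List Unit} {l : α → List Bool} (hm : Poly m) (hl : Poly l) :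
    Poly (fun a => pad (m a).length (l a)) := by
  unfold pad
  refine Poly.append ?_ (Poly.cons (Poly.const _) hl)
  have h1 : UPoly (fun a => (m a).length - ((l a).length + 1)) :=
    UPoly.of_le (Poly.sub (Poly.length hm) (Poly.add (Poly.length hl) (Poly.const 1)))
      (UPoly.length hm) (fun a => Nat.sub_le _ _)
  exact (Poly.map (F := fun _ _ => false) h1 (Poly.const _)).congr fun a => by simp

theorem poly_pairBits {x w : α → List Bool} (hx : Poly x) (hw : Poly w) :
    Poly (fun a => pairBits (x a) (w a)) := by
  unfold pairBits
  refine Poly.append ?_ (Poly.cons (Poly.const _) hw)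
  exact Poly.flatMap (F := fun _ b => [true, b]) hx
    (Poly.cons (Poly.const _) (Poly.cons (Poly.snd Poly.id) (Poly.const _)))

/-! ### Evaluation of circuits -/

theorem poly_fn : Poly (fun p : Gate × Bool × Bool => p.1.fn p.2.1 p.2.2) := by
  unfold Gate.fn
  exact Poly.cond (Poly.fst (Poly.snd Poly.id))
    (Poly.cond (Poly.snd (Poly.snd Poly.id))
      (Poly.snd (Poly.snd (Poly.snd (Poly.fst (Poly.fst Poly.id)))))
      (Poly.fst (Poly.snd (Poly.snd (Poly.fst (Poly.fst Poly.id))))))
    (Poly.cond (Poly.snd (Poly.snd Poly.id))
      (Poly.fst (Poly.snd (Poly.fst (Poly.fst Poly.id))))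
      (Poly.fst (Poly.fst (Poly.fst Poly.id))))

theorem sz_values (gates : List Gate) : ∀ x : List Bool,
    sz (values gates x) ≤ sz x + 4 * gates.length := by
  induction gates with
  | nil => intro x; simp [values]
  | cons g gates ih =>
    intro x
    have h1 := ih (x ++ [g.fn (x.getD g.2.1 false) (x.getD g.2.2 false)])
    have h2 := sz_append x [g.fn (x.getD g.2.1 false) (x.getD g.2.2 false)]
    have h3 := sz_bool_le (g.fn (x.getD g.2.1 false) (x.getD g.2.2 false))
    simp only [sz_list_cons, sz_list_nil] at h2
    unfold values at h1 ⊢
    rw [List.foldl_cons, List.length_cons]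
    omega

theorem poly_values {C : α → List Gate} {x : α → List Bool} (hC : Poly C) (hx : Poly x) :
    Poly (fun a => values (C a) (x a)) := by
  unfold values
  obtain ⟨p, hp⟩ := hC.sz_le
  obtain ⟨q, hq⟩ := hx.sz_le
  refine Poly.foldl (F := fun _ v (g : Gate) =>
    v ++ [g.fn (v.getD g.2.1 false) (v.getD g.2.2 false)]) hC hx ?_ (q + Polynomial.C 4 * p) ?_
  · refine Poly.append (Poly.fst (Poly.snd Poly.id)) (Poly.cons ?_ (Poly.const _))
    refine poly_fn.comp (Poly.pair (Poly.snd (Poly.snd Poly.id)) (Poly.pair ?_ ?_))
    · exact Poly.getD (Poly.fst (Poly.snd Poly.id))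
        (Poly.fst (Poly.snd (Poly.snd (Poly.snd Poly.id)))) (Poly.const _)
    · exact Poly.getD (Poly.fst (Poly.snd Poly.id))
        (Poly.snd (Poly.snd (Poly.snd (Poly.snd Poly.id)))) (Poly.const _)
  · intro a k _
    have h1 := sz_values ((C a).take k) (x a)
    unfold values at h1
    have h2 : ((C a).take k).length ≤ (C a).length := by simp
    have h3 := length_lt_sz (C a)
    have h4 := hp a
    have h5 := hq a
    simp only [Polynomial.eval_add, Polynomial.eval_mul, Polynomial.eval_C]
    omega

/-- Evaluation of a described circuit. -/
def evalDesc (D y : List Bool) : Bool :=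
  (unbits (ℕ × List Gate) D).elim false (fun C => (values C.2 y).getD C.1 false)

theorem evalDesc_desc {n : ℕ} (C : Circuit n) (y : List Bool) : evalDesc C.desc y = C.eval y := by
  unfold evalDesc Circuit.desc
  rw [unbits_bits]
  rfl

theorem poly_evalDesc {D y : α → List Bool} (hD : Poly D) (hy : Poly y) :
    Poly (fun a => evalDesc (D a) (y a)) := by
  unfold evalDesc
  refine (Poly.optCases (o := fun a => unbits (ℕ × List Gate) (D a)) (g := fun _ => false)
    (h := fun a (C : ℕ × List Gate) => (values C.2 (y a)).getD C.1 false)
    (poly_unbits.comp hD) (Poly.const _) ?_).congr fun a => ?_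
  · exact Poly.getD (poly_values (Poly.snd (Poly.snd Poly.id)) (hy.comp (Poly.fst Poly.id)))
      (Poly.fst (Poly.snd Poly.id)) (Poly.const _)
  · cases unbits (ℕ × List Gate) (D a) <;> rfl

/-! ### Queries -/

/-- The string by which the `i`-th bit of the description of the circuit for length `n` with
advice `al` is asked. -/
def query (n i : ℕ) (al : List Bool) : List Bool := pairBits n.bits (pairBits i.bits al)

theorem length_pairBits (x w : List Bool) : (pairBits x w).length = 2 * x.length + w.length + 1 := by
  simp [pairBits]
  omega

theorem length_query (n i : ℕ) (al : List Bool) :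
    (query n i al).length = 2 * n.size + 2 * i.size + al.length + 2 := by
  unfold query
  rw [length_pairBits, length_pairBits, Nat.size_eq_bits_len, Nat.size_eq_bits_len]
  omega

/-- The number in unary, the index and the advice asked for by a padded query. -/
def answer (e : ℕ) (x : List Bool) : List Unit × ℕ × List Bool :=
  (List.replicate (min (valB (unpair (unpad x)).1) (x.length ^ e)) (),
    valB (unpair (unpair (unpad x)).2).1, (unpair (unpair (unpad x)).2).2)

theorem answer_query (e m n i : ℕ) (al : List Bool) (h : (query n i al).length + 1 ≤ m)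
    (hn : n ≤ m ^ e) :
    answer e (pad m (query n i al)) = (List.replicate n (), i, al) := by
  unfold answer
  rw [unpad_pad, length_pad h]
  unfold query
  simp only [unpair_pairBits, valB_bits]
  rw [min_eq_left hn]

theorem UPoly.pow {n : α → ℕ} (hn : UPoly n) (e : ℕ) : UPoly (fun a => n a ^ e) := by
  simpa using hn.eval (Polynomial.X ^ e)

theorem poly_answer (e : ℕ) : Poly (answer e) := by
  unfold answer
  refine Poly.pair ?_ (Poly.pair ?_ ?_)
  · exact UPoly.of_le (Poly.min (Poly.valBits (Poly.fst (poly_unpair.comp poly_unpad)))
      (UPoly.pow (UPoly.length Poly.id) e).toPoly)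
      (UPoly.pow (UPoly.length Poly.id) e) (fun a => min_le_right _ _)
  · exact Poly.valBits (Poly.fst (poly_unpair.comp (Poly.snd (poly_unpair.comp poly_unpad))))
  · exact Poly.snd (poly_unpair.comp (Poly.snd (poly_unpair.comp poly_unpad)))

/-- The next language of the chain: the padded queries about the bits of the circuits. -/
def nextLang (e : ℕ) (W : Set (List Bool)) : Set (List Bool) := {x | bits (answer e x) ∈ W}

theorem reduces_nextLang (e : ℕ) (W : Set (List Bool)) : Reduces (nextLang e W) W :=
  ⟨fun x => bits (answer e x), polyTime_bits (poly_answer e), fun _ => Iff.rfl⟩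

/-! ### The decoder -/

/-- The data describing one level of the decoding: `1^m`, where `m` is the number of inputs of the
circuit which computes the bits, the length for which the circuit is wanted, the length of its
description, and the advice. -/
abbrev Entry : Type := List Unit × ℕ × ℕ × List Bool

/-- One level of the decoding: from the description `D` of the circuit which computes the bits. -/
def level (B : ℕ) (e : Entry) (D : List Bool) : List Bool :=
  (List.range (min e.2.2.1 B)).map fun i => evalDesc D (pad e.1.length (query e.2.1 i e.2.2.2))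

/-- The decoder. -/
def decode (b : ℕ) (x : List Bool) : List Bool :=
  (unbits (List Entry × List Bool) (unpad x)).elim []
    (fun A => A.1.foldr (level (x.length ^ b)) A.2)

theorem length_level (B : ℕ) (e : Entry) (D : List Bool) : (level B e D).length ≤ B := by
  simp [level]

theorem poly_decode (b : ℕ) : Poly (decode b) := by
  unfold decode
  refine (Poly.optCases (o := fun x => unbits (List Entry × List Bool) (unpad x))
    (g := fun _ => ([] : List Bool))
    (h := fun x (A : List Entry × List Bool) => A.1.foldr (level (x.length ^ b)) A.2)
    (poly_unbits.comp poly_unpad) (Poly.const _) ?_).congr fun a => ?_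
  · refine Poly.foldr (l := fun p : List Bool × List Entry × List Bool => p.2.1)
      (s := fun p : List Bool × List Entry × List Bool => p.2.2)
      (F := fun p => level (p.1.length ^ b)) (Poly.fst (Poly.snd Poly.id))
      (Poly.snd (Poly.snd Poly.id)) ?_
      (Polynomial.C 4 * Polynomial.X ^ b + Polynomial.X + 1) ?_
    · unfold level
      refine Poly.map (l := fun p : (List Bool × List Entry × List Bool) × Entry × List Bool =>
          List.range (min p.2.1.2.2.1 (p.1.1.length ^ b)))
        (F := fun p i => evalDesc p.2.2 (pad p.2.1.1.length (query p.2.1.2.1 i p.2.1.2.2.2)))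
        (UPoly.range ?_) (poly_evalDesc ?_ (poly_pad ?_ (poly_pairBits ?_ (poly_pairBits ?_ ?_))))
      · exact UPoly.of_le (Poly.min (Poly.fst (Poly.snd (Poly.snd (Poly.fst (Poly.snd Poly.id)))))
          (UPoly.pow (UPoly.length (Poly.fst (Poly.fst Poly.id))) b).toPoly)
          (UPoly.pow (UPoly.length (Poly.fst (Poly.fst Poly.id))) b) (fun a => min_le_right _ _)
      · exact Poly.snd (Poly.snd (Poly.fst Poly.id))
      · exact Poly.fst (Poly.fst (Poly.snd (Poly.fst Poly.id)))
      · exact Poly.natBits (Poly.fst (Poly.snd (Poly.fst (Poly.snd (Poly.fst Poly.id)))))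
      · exact Poly.natBits (Poly.snd Poly.id)
      · exact Poly.snd (Poly.snd (Poly.snd (Poly.fst (Poly.snd (Poly.fst Poly.id)))))
    · rintro ⟨x, es, D⟩ k _
      have key : ∀ es : List Entry, sz (es.foldr (level (x.length ^ b)) D) ≤
          4 * x.length ^ b + 1 + sz D := by
        intro es
        cases es with
        | nil => simp
        | cons e es =>
          rw [List.foldr_cons]
          have h1 := length_level (x.length ^ b) e
            (es.foldr (level (x.length ^ b)) D)
          have h2 := sz_listBool_le (level (x.length ^ b) e
            (es.foldr (level (x.length ^ b)) D))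
          omega
      have h1 := key (es.drop k)
      have h2 := length_lt_sz x
      have h3 := sz_pos es
      simp only [Polynomial.eval_add, Polynomial.eval_mul, Polynomial.eval_C, Polynomial.eval_X,
        Polynomial.eval_one, Polynomial.eval_pow, sz_pair]
      change sz (List.foldr (level (x.length ^ b)) D (List.drop k es)) ≤ _
      have h4 : x.length ^ b ≤ (sz x + (sz es + sz D + 1) + 1) ^ b :=
        Nat.pow_le_pow_left (by omega) b
      omega
  · cases unbits (List Entry × List Bool) (unpad a) <;> rfl

/-- The diagonal language. -/
def diag (b : ℕ) : Set (List Bool) := {x | evalDesc (decode b x) x = false}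

theorem inP_diag (b : ℕ) : InP (diag b) := by
  refine ⟨fun x => [!(evalDesc (decode b x) x)],
    polyTime_of_poly (Poly.not (poly_evalDesc (poly_decode b) Poly.id)), fun x => ?_⟩
  simp [diag]

end Pool.Agent.NPC.H559U
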