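import Mathlib
import Pool.Agent.H559R3.NDefs
import Pool.Agent.H559R3.UPoly
import Pool.Agent.H609R2.NPClosure
import Pool.Agent.H611R2.RawNP

/-!
# The nondeterministic decoder
-/

namespace Pool.Agent.NPC.H559U

variable {α : Type} [TEnc α]

/-- Evaluation of a described nondeterministic circuit on an input and guess bits. -/
def evalN (D y w : List Bool) : Bool :=
  (unbits (ℕ × ℕ × List Gate) D).elim false
    (fun C => decide (w.length = C.1) && (values C.2.2 (y ++ w)).getD C.2.1 false)

theorem exists_evalN {n : ℕ} (C : NCircuit n) (y : List Bool) :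
    (∃ w, evalN C.desc y w = true) ↔ C.Accepts y := by
  unfold evalN NCircuit.desc NCircuit.Accepts
  simp only [unbits_bits, Option.elim_some, Bool.and_eq_true, decide_eq_true_eq]

theorem length_of_evalN {n : ℕ} (C : NCircuit n) (y w : List Bool)
    (h : evalN C.desc y w = true) : w.length ≤ C.size := by
  unfold evalN NCircuit.desc at h
  simp only [unbits_bits, Option.elim_some, Bool.and_eq_true, decide_eq_true_eq] at h
  unfold NCircuit.size
  omega

theorem poly_evalN {D y w : α → List Bool} (hD : Poly D) (hy : Poly y) (hw : Poly w) :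
    Poly (fun a => evalN (D a) (y a) (w a)) := by
  unfold evalN
  refine (Poly.optCases (o := fun a => unbits (ℕ × ℕ × List Gate) (D a)) (g := fun _ => false)
    (h := fun a (C : ℕ × ℕ × List Gate) =>
      decide ((w a).length = C.1) && (values C.2.2 (y a ++ w a)).getD C.2.1 false)
    (poly_unbits.comp hD) (Poly.const _) ?_).congr fun a => ?_
  · refine Poly.and (Poly.decide_eq (Poly.length (hw.comp (Poly.fst Poly.id)))
      (Poly.fst (Poly.snd Poly.id))) ?_
    exact Poly.getD (poly_values (Poly.snd (Poly.snd (Poly.snd Poly.id)))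
      (Poly.append (hy.comp (Poly.fst Poly.id)) (hw.comp (Poly.fst Poly.id))))
      (Poly.fst (Poly.snd (Poly.snd Poly.id))) (Poly.const _)
  · cases unbits (ℕ × ℕ × List Gate) (D a) <;> rfl

/-! ### The next language of the chain -/

/-- The string by which the bit is asked. -/
def ask (e : ℕ) (x : List Bool) : List Bool :=
  bits ((answer e x).1, (answer e x).2.1, (answer e x).2.2.tail)

/-- Is the question whether the bit is zero? -/
def tag (e : ℕ) (x : List Bool) : Bool := (answer e x).2.2.getD 0 false

/-- The next language of the chain: padded queries; the query asks whether a bit of a circuit is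
one, or whether it is zero. -/
def joinLang (e : ℕ) (W : Set (List Bool)) : Set (List Bool) :=
  {x | (tag e x = false ∧ ask e x ∈ W) ∨ (tag e x = true ∧ ask e x ∉ W)}

theorem poly_tag (e : ℕ) : Poly (tag e) :=
  Poly.getD (Poly.snd (Poly.snd (poly_answer e))) (Poly.const _) (Poly.const _)

theorem poly_ask (e : ℕ) : Poly (ask e) := by
  have h1 : Poly (fun x => ((answer e x).1, (answer e x).2.1, (answer e x).2.2.tail)) :=
    Poly.pair (Poly.fst (poly_answer e)) (Poly.pair (Poly.fst (Poly.snd (poly_answer e)))
      (Poly.tail (Poly.snd (Poly.snd (poly_answer e)))))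
  exact poly_of_polyTime (polyTime_bits h1)

/-- `NP` languages through `Poly` verifiers. -/
theorem InNP.exists_poly {W : Set (List Bool)} (h : InNP W) :
    ∃ (g : List Bool × List Bool → Bool) (p : Polynomial ℕ), Poly g ∧
      ∀ x, x ∈ W ↔ ∃ w : List Bool, w.length ≤ p.eval x.length ∧ g (x, w) = true := by
  obtain ⟨V, p, hV, h⟩ := h
  refine ⟨fun z => decide (V (pairBits z.1 z.2) = [true]), p, ?_, fun x => ?_⟩
  · exact Poly.decide_eq ((poly_of_polyTime hV).comp
      (NPC.H559U.poly_pairBits (Poly.fst Poly.id) (Poly.snd Poly.id))) (Poly.const _)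
  · rw [h x]
    simp only [decide_eq_true_eq]

theorem inNP_ite {W W' : Set (List Bool)} (h : InNP W) (h' : InNP W')
    {c c' : List Bool → Bool} (hc : Poly c) (hc' : Poly c')
    {f : List Bool → List Bool} (hf : Poly f) :
    InNP {x | (c x = true ∧ f x ∈ W) ∨ (c' x = true ∧ f x ∈ W')} := by
  obtain ⟨g, p, hg, hgW⟩ := InNP.exists_poly h
  obtain ⟨g', p', hg', hgW'⟩ := InNP.exists_poly h'
  obtain ⟨r, hr⟩ := hf.sz_le
  have hlen : ∀ x : List Bool, (f x).length ≤ r.eval (4 * x.length + 1) := by
    intro x
    have h1 := hr x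
    have h2 := sz_listBool_ge (f x)
    have h3 := sz_listBool_le x
    have h4 := eval_mono r h3
    omega
  refine H611R2.inNP_of_poly (fun z =>
    (c z.1 && (decide (z.2.length ≤ p.eval (f z.1).length) && g (f z.1, z.2))) ||
    (c' z.1 && (decide (z.2.length ≤ p'.eval (f z.1).length) && g' (f z.1, z.2)))) ?_
    ((p + p').comp (r.comp (Polynomial.C 4 * Polynomial.X + Polynomial.C 1))) fun x => ?_
  · have hfz : Poly (fun z : List Bool × List Bool => f z.1) := hf.comp (Poly.fst Poly.id)
    refine Poly.or (Poly.and (hc.comp (Poly.fst Poly.id)) (Poly.and ?_ ?_))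
      (Poly.and (hc'.comp (Poly.fst Poly.id)) (Poly.and ?_ ?_))
    · exact Poly.decide_le (Poly.length (Poly.snd Poly.id)) ((UPoly.length hfz).eval p).toPoly
    · exact hg.comp (Poly.pair hfz (Poly.snd Poly.id))
    · exact Poly.decide_le (Poly.length (Poly.snd Poly.id)) ((UPoly.length hfz).eval p').toPoly
    · exact hg'.comp (Poly.pair hfz (Poly.snd Poly.id))
  · have hb : (p + p').eval (f x).length ≤
        ((p + p').comp (r.comp (Polynomial.C 4 * Polynomial.X + Polynomial.C 1))).eval
          x.length := by
      rw [Polynomial.eval_comp, Polynomial.eval_comp]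
      refine eval_mono (p + p') ?_
      simpa using hlen x
    rw [Polynomial.eval_add] at hb
    rw [Set.mem_ofPred_eq, hgW, hgW']
    simp only [Bool.or_eq_true, Bool.and_eq_true, decide_eq_true_eq]
    constructor
    · rintro (⟨h1, w, h2, h3⟩ | ⟨h1, w, h2, h3⟩)
      · exact ⟨w, by omega, Or.inl ⟨h1, h2, h3⟩⟩
      · exact ⟨w, by omega, Or.inr ⟨h1, h2, h3⟩⟩
    · rintro ⟨w, _, (⟨h1, h2, h3⟩ | ⟨h1, h2, h3⟩)⟩
      · exact Or.inl ⟨h1, w, h2, h3⟩
      · exact Or.inr ⟨h1, w, h2, h3⟩

/-- The class `NP ∩ coNP`. -/
def NPcoNP : Set (Set (List Bool)) := {W | InNP W ∧ InCoNP W}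

theorem inNP_joinLang (e : ℕ) {W : Set (List Bool)} (h : W ∈ NPcoNP) : InNP (joinLang e W) := by
  have h1 := inNP_ite h.1 h.2 (Poly.not (poly_tag e)) (poly_tag e) (poly_ask e)
  convert h1 using 1
  ext x
  simp only [joinLang, Set.mem_ofPred_eq, Bool.not_eq_true', Set.mem_compl_iff]

theorem inCoNP_joinLang (e : ℕ) {W : Set (List Bool)} (h : W ∈ NPcoNP) :
    InCoNP (joinLang e W) := by
  have h1 := inNP_ite h.2 h.1 (Poly.not (poly_tag e)) (poly_tag e) (poly_ask e)
  unfold InCoNP
  convert h1 using 1
  ext x
  simp only [joinLang, Set.mem_ofPred_eq, Bool.not_eq_true', Set.mem_compl_iff]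
  cases tag e x <;> simp

/-! ### The verifier -/

/-- The certificates: the descriptions of the circuits, the guesses for all their bits, and the
guess for the last circuit. -/
abbrev Cert : Type := (List (List Bool) × List (List (List Bool))) × List Bool

/-- The check of the `i`-th bit of the description `D`, with the circuit `F`. -/
def bitOK (E : Entry) (D F : List Bool) (ws : List (List Bool)) (i : ℕ) : Bool :=
  evalN F (pad E.1.length (query E.2.1 i ((!(D.getD i false)) :: E.2.2.2))) (ws.getD i [])

/-- The check of one description. -/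
def levelOK (E : Entry) (D F : List Bool) (ws : List (List Bool)) : Bool :=
  decide (D.length = E.2.2.1) && (List.range D.length).all (bitOK E D F ws)

/-- The check of the whole certificate. -/
def verify (x : List Bool) (A : List Entry × List Bool) (c : Cert) : Bool :=
  (decide (c.1.1.getD A.1.length [] = A.2) && (List.range A.1.length).all fun j =>
    levelOK (A.1.getD j ([], 0, 0, [])) (c.1.1.getD j []) (c.1.1.getD (j + 1) [])
      (c.1.2.getD j [])) && evalN (c.1.1.getD 0 []) x c.2

/-- The verifier. -/
def verifier (z : List Bool × List Bool) : Bool :=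
  (unbits (List Entry × List Bool) (unpad z.1)).elim false fun A =>
    (unbits Cert z.2).elim false fun c => verify z.1 A c

theorem poly_bitOK {E : α → Entry} {D F : α → List Bool} {ws : α → List (List Bool)} {i : α → ℕ}
    (hE : Poly E) (hD : Poly D) (hF : Poly F) (hws : Poly ws) (hi : Poly i) :
    Poly (fun a => bitOK (E a) (D a) (F a) (ws a) (i a)) := by
  unfold bitOK
  refine poly_evalN hF (poly_pad (Poly.fst hE) (NPC.H559U.poly_pairBits
    (Poly.natBits (Poly.fst (Poly.snd hE))) (NPC.H559U.poly_pairBits (Poly.natBits hi)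
      (Poly.cons (Poly.not (Poly.getD hD hi (Poly.const _))) (Poly.snd (Poly.snd (Poly.snd hE)))))))
    (Poly.getD hws hi (Poly.const _))

theorem poly_levelOK {E : α → Entry} {D F : α → List Bool} {ws : α → List (List Bool)}
    (hE : Poly E) (hD : Poly D) (hF : Poly F) (hws : Poly ws) :
    Poly (fun a => levelOK (E a) (D a) (F a) (ws a)) := by
  unfold levelOK
  refine Poly.and (Poly.decide_eq (Poly.length hD) (Poly.fst (Poly.snd (Poly.snd hE)))) ?_
  refine Poly.all (p := fun a i => bitOK (E a) (D a) (F a) (ws a) i)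
    (UPoly.range (UPoly.length hD)) ?_
  exact poly_bitOK (hE.comp (Poly.fst Poly.id)) (hD.comp (Poly.fst Poly.id))
    (hF.comp (Poly.fst Poly.id)) (hws.comp (Poly.fst Poly.id)) (Poly.snd Poly.id)

theorem poly_verify {x : α → List Bool} {A : α → List Entry × List Bool} {c : α → Cert}
    (hx : Poly x) (hA : Poly A) (hc : Poly c) : Poly (fun a => verify (x a) (A a) (c a)) := by
  unfold verify
  have h11 := Poly.fst (Poly.fst hc)
  have h12 := Poly.snd (Poly.fst hc)
  refine Poly.and (Poly.and (Poly.decide_eq (Poly.getD h11 (Poly.length (Poly.fst hA))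
    (Poly.const _)) (Poly.snd hA)) ?_)
    (poly_evalN (Poly.getD h11 (Poly.const 0) (Poly.const _)) hx (Poly.snd hc))
  refine Poly.all (p := fun a j => levelOK ((A a).1.getD j ([], 0, 0, [])) ((c a).1.1.getD j [])
    ((c a).1.1.getD (j + 1) []) ((c a).1.2.getD j [])) (UPoly.range (UPoly.length (Poly.fst hA))) ?_
  have e1 : Poly (fun p : α × ℕ => (A p.1).1) := (Poly.fst hA).comp (Poly.fst Poly.id)
  have e2 : Poly (fun p : α × ℕ => (c p.1).1.1) := h11.comp (Poly.fst Poly.id)
  have e3 : Poly (fun p : α × ℕ => (c p.1).1.2) := h12.comp (Poly.fst Poly.id)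
  exact poly_levelOK (Poly.getD e1 (Poly.snd Poly.id) (Poly.const _))
    (Poly.getD e2 (Poly.snd Poly.id) (Poly.const _))
    (Poly.getD e2 (Poly.succ (Poly.snd Poly.id)) (Poly.const _))
    (Poly.getD e3 (Poly.snd Poly.id) (Poly.const _))

theorem poly_verifier : Poly verifier := by
  unfold verifier
  refine (Poly.optCases (o := fun z : List Bool × List Bool =>
      unbits (List Entry × List Bool) (unpad z.1)) (g := fun _ => false)
    (h := fun z A => (unbits Cert z.2).elim false fun c => verify z.1 A c)
    (poly_unbits.comp (poly_unpad.comp (Poly.fst Poly.id))) (Poly.const _) ?_).congr fun z => ?_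
  · refine (Poly.optCases (o := fun p : (List Bool × List Bool) × List Entry × List Bool =>
        unbits Cert p.1.2) (g := fun _ => false)
      (h := fun p c => verify p.1.1 p.2 c)
      (poly_unbits.comp (Poly.snd (Poly.fst Poly.id))) (Poly.const _) ?_).congr fun z => ?_
    · exact poly_verify (Poly.fst (Poly.fst (Poly.fst Poly.id))) (Poly.snd (Poly.fst Poly.id))
        (Poly.snd Poly.id)
    · cases unbits Cert z.1.2 <;> rfl
  · cases unbits (List Entry × List Bool) (unpad z.1) <;> rfl

/-- The diagonal language. -/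
def diagN (q : ℕ) : Set (List Bool) :=
  {x | ∃ w : List Bool, w.length ≤ x.length ^ q ∧ verifier (x, w) = true}ᶜ

theorem inCoNP_diagN (q : ℕ) : InCoNP (diagN q) := by
  unfold InCoNP diagN
  rw [compl_compl]
  refine H611R2.inNP_of_poly verifier poly_verifier (Polynomial.X ^ q) fun x => ?_
  simp only [Set.mem_ofPred_eq, Polynomial.eval_pow, Polynomial.eval_X]

end Pool.Agent.NPC.H559U
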