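import Mathlib
import Pool.Agent.H559R3.UPoly

/-!
# The diagonalisation
-/

namespace Pool.Agent.NPC.H559U

/-! ### Sizes -/

theorem sz_replicate_unit (m : ℕ) : sz (List.replicate m ()) = 2 * m + 1 := by
  induction m with
  | zero => rfl
  | succ m ih =>
    rw [List.replicate_succ, sz_list_cons, ih, sz_unit]
    omega

theorem sz_nat_le' {m v : ℕ} (h : m < 2 ^ v) : sz m ≤ 4 * v + 1 := by
  have h1 := sz_nat_le m
  have h2 := Nat.size_le.2 h
  omega

theorem length_desc {n : ℕ} (C : Circuit n) {v : ℕ} (hv : n + C.size ≤ 2 ^ v) :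
    C.desc.length ≤ (C.size + 1) * (8 * v + 20) := by
  unfold Circuit.desc
  rw [bits_length, sz_pair]
  have h1 : sz C.out ≤ 4 * v + 1 := sz_nat_le' (lt_of_lt_of_le C.out_lt hv)
  have h2 : sz C.gates ≤ C.size * (8 * v + 20) + 1 := by
    have := sz_le_length_mul C.gates (8 * v + 19) (by
      intro g hg
      obtain ⟨k, hk⟩ := List.mem_iff_getElem?.1 hg
      obtain ⟨h1, h2⟩ := C.wf k g hk
      have hk' : k < C.gates.length := by
        by_contra hcon
        rw [List.getElem?_eq_none (by omega)] at hk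
        simp at hk
      obtain ⟨⟨b1, b2, b3, b4⟩, l, r⟩ := g
      have e1 : sz l ≤ 4 * v + 1 := sz_nat_le' (lt_of_lt_of_le h1 (le_trans (by
        unfold Circuit.size; omega) hv))
      have e2 : sz r ≤ 4 * v + 1 := sz_nat_le' (lt_of_lt_of_le h2 (le_trans (by
        unfold Circuit.size; omega) hv))
      have e3 := sz_bool_le b1
      have e4 := sz_bool_le b2
      have e5 := sz_bool_le b3
      have e6 := sz_bool_le b4
      simp only [sz_pair]
      omega)
    exact this
  nlinarith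

/-! ### The contradiction from a chain of circuits -/

/-- The entry of level `j`. -/
def entry (n : ℕ → ℕ) (D al : ℕ → List Bool) (j : ℕ) : Entry :=
  (List.replicate (n (j + 1)) (), n j, (D j).length, al j)

theorem level_entry {n : ℕ → ℕ} {D al : ℕ → List Bool} {j B e : ℕ} {L' W : Set (List Bool)}
    (hL : L' = nextLang e W)
    (hD : ∀ y : List Bool, y.length = n (j + 1) → (evalDesc (D (j + 1)) y = true ↔ y ∈ L'))
    (hW : ∀ (i : ℕ) (hi : i < (D j).length),
      (bits (List.replicate (n j) (), i, al j) ∈ W ↔ (D j)[i] = true))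
    (hlen : (D j).length ≤ B)
    (hq : ∀ i < (D j).length, (query (n j) i (al j)).length + 1 ≤ n (j + 1))
    (hn : n j ≤ n (j + 1) ^ e) :
    level B (entry n D al j) (D (j + 1)) = D j := by
  subst hL
  unfold level entry
  simp only [List.length_replicate, min_eq_left hlen]
  apply List.ext_getElem
  · simp
  · intro i h1 h2
    simp only [List.getElem_map, List.getElem_range]
    have h3 := hq i h2
    have h4 := hD (pad (n (j + 1)) (query (n j) i (al j))) (length_pad h3)
    have h5 : pad (n (j + 1)) (query (n j) i (al j)) ∈ nextLang e W ↔ (D j)[i] = true := by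
      rw [← hW i h2]
      unfold nextLang
      rw [Set.mem_ofPred_eq, answer_query _ _ _ _ _ h3 hn]
    rw [h5] at h4
    exact Bool.eq_iff_iff.2 h4

theorem contra (e b r : ℕ) (n : ℕ → ℕ) (L W : ℕ → Set (List Bool)) (D al : ℕ → List Bool)
    (hL0 : L 0 = diag b) (hLW : ∀ j < r, L (j + 1) = nextLang e (W j))
    (hD : ∀ j ≤ r, ∀ y : List Bool, y.length = n j → (evalDesc (D j) y = true ↔ y ∈ L j))
    (hW : ∀ j < r, ∀ (i : ℕ) (hi : i < (D j).length),
      (bits (List.replicate (n j) (), i, al j) ∈ W j ↔ (D j)[i] = true))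
    (hlen : ∀ j < r, (D j).length ≤ n 0 ^ b)
    (hq : ∀ j < r, ∀ i < (D j).length, (query (n j) i (al j)).length + 1 ≤ n (j + 1))
    (hn : ∀ j < r, n j ≤ n (j + 1) ^ e)
    (hsz : sz ((List.range r).map (entry n D al), D r) + 1 ≤ n 0) : False := by
  have key : ∀ m ≤ r, ((List.range' (r - m) m).map (entry n D al)).foldr
      (level (n 0 ^ b)) (D r) = D (r - m) := by
    intro m
    induction m with
    | zero => intro _; simp
    | succ m ih =>
      intro hm
      have e1 : r - (m + 1) + 1 = r - m := by omega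
      rw [List.range'_succ, List.map_cons, List.foldr_cons, e1, ih (by omega), ← e1]
      have hj : r - (m + 1) < r := by omega
      exact level_entry (hLW _ hj) (hD _ (by omega)) (hW _ hj) (hlen _ hj) (hq _ hj) (hn _ hj)
  have key0 := key r le_rfl
  rw [Nat.sub_self, ← List.range_eq_range'] at key0
  set A : List Entry × List Bool := ((List.range r).map (entry n D al), D r) with hA
  have hx : (pad (n 0) (bits A)).length = n 0 := length_pad (by rw [bits_length]; exact hsz)
  have hdec : decode b (pad (n 0) (bits A)) = D 0 := by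
    unfold decode
    rw [unpad_pad, unbits_bits, hx]
    exact key0
  have h1 := hD 0 (Nat.zero_le _) _ hx
  rw [hL0] at h1
  unfold diag at h1
  rw [Set.mem_ofPred_eq, hdec] at h1
  cases h : evalDesc (D 0) (pad (n 0) (bits A)) <;> simp [h] at h1

/-! ### Parameters -/

theorem eventually_log (K : ℕ) : ∀ᶠ m : ℕ in Filter.atTop, K * (Nat.log 2 m + 1) ≤ m := by
  have h1 : ∀ᶠ h : ℕ in Filter.atTop, K * (h + 1) ≤ 2 ^ h := by
    have h2 := (isLittleO_pow_const_const_pow_of_one_lt (R := ℝ) 1 (r := 2) (by norm_num)).bound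
      (c := 1 / (2 * (K : ℝ) + 1)) (by positivity)
    filter_upwards [h2, Filter.eventually_ge_atTop 1] with h hh h1
    rw [Real.norm_of_nonneg (by positivity), Real.norm_of_nonneg (by positivity)] at hh
    have h3 : (2 * (K : ℝ) + 1) * (h : ℝ) ≤ 2 ^ h := by
      have := mul_le_mul_of_nonneg_left hh (show (0 : ℝ) ≤ 2 * (K : ℝ) + 1 by positivity)
      field_simp at this
      linarith
    have h4 : (2 * K + 1) * h ≤ 2 ^ h := by exact_mod_cast h3
    nlinarith
  have h2 : Filter.Tendsto (fun m : ℕ => Nat.log 2 m) Filter.atTop Filter.atTop := by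
    rw [Filter.tendsto_atTop]
    intro B
    filter_upwards [Filter.eventually_ge_atTop (2 ^ B)] with m hm
    exact (Nat.le_log_iff_pow_le (by norm_num) (by have := Nat.one_le_two_pow (n := B); omega)).2 hm
  filter_upwards [h2.eventually h1, Filter.eventually_ge_atTop 1] with m hm hm1
  exact hm.trans (Nat.pow_log_le_self 2 (by omega))

/-- The sequence of lengths. -/
def lens (σ : ℕ → ℕ) (n : ℕ) : ℕ → ℕ
  | 0 => n
  | j + 1 => 8 * (lens σ n j / σ (lens σ n j))

structure LensOK (σ : ℕ → ℕ) (n e r t K X : ℕ) : Prop where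
  ge : ∀ j ≤ r, X ≤ lens σ n j
  le : ∀ j ≤ r, lens σ n j ≤ n
  sle : ∀ j ≤ r, σ (lens σ n j) ≤ lens σ n j
  pow : ∀ j < r, lens σ n j ≤ lens σ n (j + 1) ^ e
  dec : ∀ j < r, lens σ n (j + 1) * σ (lens σ n j) ≤ 8 * lens σ n j
  lg : ∀ j ≤ r, K * (Nat.log 2 n + 1) ≤ lens σ n j
  last : lens σ n r * σ (lens σ n r) ^ r ≤ 8 ^ r * n
  lgs : Nat.log 2 n + 1 ≤ 4 * e ^ r * σ (lens σ n r) ^ t

theorem log_bound {n m E : ℕ} (h : n ≤ m ^ E) (hE : 1 ≤ E) (hn : 1 ≤ n) :
    Nat.log 2 n + 1 ≤ 2 * E * (Nat.log 2 m + 1) := by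
  have h1 : m < 2 ^ (Nat.log 2 m + 1) := Nat.lt_pow_succ_log_self (by norm_num) m
  have h2 : n < 2 ^ ((Nat.log 2 m + 1) * E) := by
    refine lt_of_le_of_lt h ?_
    rw [pow_mul]
    exact Nat.pow_lt_pow_left h1 (by omega)
  have h3 : Nat.log 2 n < (Nat.log 2 m + 1) * E := Nat.log_lt_of_lt_pow (by omega) h2
  nlinarith

theorem exists_lens (σ : ℕ → ℕ) (hσ : Monotone σ) (t e r K N : ℕ)
    (h1 : ∀ᶠ n in Filter.atTop, Nat.log 2 n ≤ σ n ^ t)
    (h2 : ∀ᶠ n in Filter.atTop, σ n ^ e * n ≤ n ^ e) :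
    ∃ n, LensOK σ n e r t K N ∧ N ≤ n ∧ ∀ j ≤ r, K ≤ σ (lens σ n j) := by
  -- `σ` tends to infinity
  have hinf : ∀ B, ∀ᶠ n in Filter.atTop, B ≤ σ n := by
    intro B
    filter_upwards [h1, Filter.eventually_ge_atTop (2 ^ (B ^ t + 1))] with n hn hn2
    by_contra hcon
    have h3 : σ n ^ t ≤ B ^ t := Nat.pow_le_pow_left (by omega) t
    have h4 : B ^ t + 1 ≤ Nat.log 2 n :=
      (Nat.le_log_iff_pow_le (by norm_num) (by
        have := Nat.one_le_two_pow (n := B ^ t + 1); omega)).2 hn2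
    omega
  have hev := (h1.and (h2.and ((hinf (K + 8)).and ((eventually_log (K * (2 * e ^ r))).and
    (Filter.eventually_ge_atTop (N + 2))))))
  obtain ⟨X, hX⟩ := Filter.eventually_atTop.1 hev
  have hX' := fun m (hm : X ≤ m) => hX m hm
  have he : 1 ≤ e := by
    by_contra hcon
    have h3 := (hX (X + N + 2) (by omega)).2.1
    have : e = 0 := by omega
    subst this
    simp at h3
  have her : ∀ j, 1 ≤ e ^ j := fun j => Nat.one_le_pow _ _ he
  set Y := max X 1 with hY
  have hY1 : 1 ≤ Y := le_max_right _ _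
  have hYX : X ≤ Y := le_max_left _ _
  -- one step
  have step : ∀ m, X ≤ m → m ≤ (8 * (m / σ m)) ^ e ∧ 8 * (m / σ m) ≤ m ∧
      8 * (m / σ m) * σ m ≤ 8 * m ∧ σ m ≤ m := by
    intro m hm
    obtain ⟨g1, g2, g3, g4, g5⟩ := hX m hm
    have hs : 0 < σ m := by omega
    have hme : 1 ≤ m ^ e := Nat.one_le_pow _ _ (by omega)
    have hsm : σ m ≤ m := by
      by_contra hcon
      have h3 : m ^ e ≤ σ m ^ e := Nat.pow_le_pow_left (by omega) e
      nlinarith
    have h3 : 1 ≤ m / σ m := Nat.div_pos hsm hs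
    have h4 : m < σ m * (m / σ m + 1) := Nat.lt_mul_div_succ m hs
    have h5 : m / σ m * σ m ≤ m := Nat.div_mul_le_self m (σ m)
    have h6 : m ≤ 8 * (m / σ m) * σ m := by nlinarith
    have h7 : 8 * (m / σ m) * σ m ≤ 8 * m := by nlinarith
    refine ⟨?_, ?_, h7, hsm⟩
    · have h8 : m ^ e ≤ (8 * (m / σ m)) ^ e * σ m ^ e := by
        rw [← mul_pow]
        exact Nat.pow_le_pow_left h6 e
      have h9 : m * σ m ^ e ≤ (8 * (m / σ m)) ^ e * σ m ^ e := by
        rw [mul_comm m]
        exact g2.trans h8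
      exact Nat.le_of_mul_le_mul_right h9 (Nat.pow_pos hs)
    · have h8 : 8 * (m / σ m) * σ m ≤ m * σ m := h7.trans (by nlinarith)
      exact Nat.le_of_mul_le_mul_right h8 hs
  set n := Y ^ e ^ r with hn
  have key : ∀ j ≤ r, Y ≤ lens σ n j ∧
      n ≤ lens σ n j ^ e ^ j ∧ lens σ n j ≤ n ∧
      lens σ n j * σ (lens σ n j) ^ j ≤ 8 ^ j * n := by
    intro j
    induction j with
    | zero =>
      intro _
      simp only [lens, pow_zero, pow_one, mul_one, one_mul, le_refl, and_true]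
      exact Nat.le_self_pow (by have := her r; omega) Y
    | succ j ih =>
      intro hj
      obtain ⟨i1, i2, i3, i4⟩ := ih (by omega)
      obtain ⟨s1, s2, s3, -⟩ := step (lens σ n j) (hYX.trans i1)
      change Y ≤ 8 * (lens σ n j / σ (lens σ n j)) ∧
        n ≤ (8 * (lens σ n j / σ (lens σ n j))) ^ e ^ (j + 1) ∧
        8 * (lens σ n j / σ (lens σ n j)) ≤ n ∧
        8 * (lens σ n j / σ (lens σ n j)) * σ (8 * (lens σ n j / σ (lens σ n j))) ^ (j + 1) ≤
          8 ^ (j + 1) * n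
      have h3 : n ≤ (8 * (lens σ n j / σ (lens σ n j))) ^ e ^ (j + 1) := by
        calc n ≤ lens σ n j ^ e ^ j := i2
          _ ≤ ((8 * (lens σ n j / σ (lens σ n j))) ^ e) ^ e ^ j := Nat.pow_le_pow_left s1 _
          _ = _ := by rw [← pow_mul, ← pow_succ']
      refine ⟨?_, h3, s2.trans i3, ?_⟩
      · have h4 : Y ^ e ^ (j + 1) ≤ (8 * (lens σ n j / σ (lens σ n j))) ^ e ^ (j + 1) :=
          (Nat.pow_le_pow_right hY1 (Nat.pow_le_pow_right he hj)).trans h3
        exact (Nat.pow_le_pow_iff_left (by have := her (j + 1); omega)).1 h4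
      · have h4 : σ (8 * (lens σ n j / σ (lens σ n j))) ≤ σ (lens σ n j) := hσ s2
        calc _ ≤ 8 * (lens σ n j / σ (lens σ n j)) * σ (lens σ n j) ^ (j + 1) :=
              Nat.mul_le_mul_left _ (Nat.pow_le_pow_left h4 _)
          _ = (8 * (lens σ n j / σ (lens σ n j)) * σ (lens σ n j)) * σ (lens σ n j) ^ j := by
              rw [pow_succ]; ring
          _ ≤ (8 * lens σ n j) * σ (lens σ n j) ^ j := Nat.mul_le_mul_right _ s3
          _ = 8 * (lens σ n j * σ (lens σ n j) ^ j) := by ring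
          _ ≤ 8 * (8 ^ j * n) := Nat.mul_le_mul_left _ i4
          _ = _ := by rw [pow_succ]; ring
  have hn1 : 1 ≤ n := Nat.one_le_pow _ _ hY1
  have hlogj : ∀ j ≤ r, Nat.log 2 n + 1 ≤ 2 * e ^ r * (Nat.log 2 (lens σ n j) + 1) := by
    intro j hj
    have h3 := log_bound (key j hj).2.1 (her j) hn1
    have h4 : e ^ j ≤ e ^ r := Nat.pow_le_pow_right he hj
    calc _ ≤ 2 * e ^ j * (Nat.log 2 (lens σ n j) + 1) := h3
      _ ≤ _ := by gcongr
  refine ⟨n, ⟨fun j hj => ?_, fun j hj => (key j hj).2.2.1, fun j hj => ?_, fun j hj => ?_,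
    fun j hj => ?_, fun j hj => ?_, (key r le_rfl).2.2.2, ?_⟩, ?_, fun j hj => ?_⟩
  · have := (hX _ (hYX.trans (key j hj).1)).2.2.2.2
    omega
  · exact (step _ (hYX.trans (key j hj).1)).2.2.2
  · exact (step _ (hYX.trans (key j hj.le).1)).1
  · exact (step _ (hYX.trans (key j hj.le).1)).2.2.1
  · have h3 := (hX _ (hYX.trans (key j hj).1)).2.2.2.1
    have h4 := hlogj j hj
    calc K * (Nat.log 2 n + 1) ≤ K * (2 * e ^ r * (Nat.log 2 (lens σ n j) + 1)) :=
        Nat.mul_le_mul_left _ h4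
      _ = K * (2 * e ^ r) * (Nat.log 2 (lens σ n j) + 1) := by ring
      _ ≤ _ := h3
  · have h3 := (hX _ (hYX.trans (key r le_rfl).1)).1
    have h5 := (hX _ (hYX.trans (key r le_rfl).1)).2.2.1
    have h4 := hlogj r le_rfl
    have h6 : 1 ≤ σ (lens σ n r) ^ t := Nat.one_le_pow _ _ (by omega)
    calc _ ≤ 2 * e ^ r * (Nat.log 2 (lens σ n r) + 1) := h4
      _ ≤ 2 * e ^ r * (2 * σ (lens σ n r) ^ t) := Nat.mul_le_mul_left _ (by omega)
      _ = _ := by ring
  · have h3 := (hX _ (hYX.trans (key 0 (Nat.zero_le _)).1)).2.2.2.2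
    have h4 : lens σ n 0 = n := rfl
    omega
  · have h3 := (hX _ (hYX.trans (key j hj).1)).2.2.1
    omega

theorem main (𝒞 : Set (Set (List Bool))) (hP : ∀ L, InP L → L ∈ 𝒞)
    (hR : ∀ L L', Reduces L L' → L' ∈ 𝒞 → L ∈ 𝒞) (σ : ℕ → ℕ) (hσ : Monotone σ) (t e : ℕ)
    (hσ1 : ∀ᶠ n in Filter.atTop, Nat.log 2 n ≤ σ n ^ t)
    (hσ2 : ∀ᶠ n in Filter.atTop, σ n ^ e * n ≤ n ^ e)
    (a : ℕ → ℕ) (ha : ∀ᶠ n in Filter.atTop, a n * σ n ≤ n) (k : ℕ) :
    ∃ L ∈ 𝒞, ∀ c, ¬ HasUniformCircuits 𝒞 a (fun n => c * (n * σ n ^ k)) L := by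
  by_contra hcon
  push Not at hcon
  have hall : ∀ L : {L // L ∈ 𝒞}, ∃ (c : ℕ) (W : {W // W ∈ 𝒞}) (n₀ : ℕ), ∀ n ≥ n₀,
      ∃ (C : Circuit n) (α : List Bool), C.size ≤ c * (n * σ n ^ k) ∧ C.Computes L.1 ∧
        α.length ≤ a n ∧ ∀ (i : ℕ) (hi : i < C.desc.length),
        (bits (List.replicate n (), i, α) ∈ W.1 ↔ C.desc[i] = true) := by
    rintro ⟨L, hL⟩
    obtain ⟨c, W, hW, n₀, h⟩ := hcon L hL
    exact ⟨c, ⟨W, hW⟩, n₀, h⟩
  choose c W n₀ hall using hall
  set b := k + 3 with hb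
  set r := k + t + 1 with hr
  let F : {L // L ∈ 𝒞} → {L // L ∈ 𝒞} := fun L =>
    ⟨nextLang e (W L).1, hR _ _ (reduces_nextLang e _) (W L).2⟩
  let L : ℕ → {L // L ∈ 𝒞} := fun j => F^[j] ⟨diag b, hP _ (inP_diag b)⟩
  have hL0 : (L 0).1 = diag b := rfl
  have hLs : ∀ j, (L (j + 1)).1 = nextLang e (W (L j)).1 := by
    intro j
    simp only [L, Function.iterate_succ_apply']
    rfl
  obtain ⟨N₁, hN₁⟩ := Filter.eventually_atTop.1 ha
  set c' := ∑ j ∈ Finset.range (r + 1), c (L j) with hc'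
  set N := ∑ j ∈ Finset.range (r + 1), n₀ (L j) with hN
  have hcj : ∀ j ≤ r, c (L j) ≤ c' := fun j hj =>
    Finset.single_le_sum (f := fun j => c (L j)) (fun _ _ => Nat.zero_le _)
      (Finset.mem_range.2 (by omega))
  have hNj : ∀ j ≤ r, n₀ (L j) ≤ N := fun j hj =>
    Finset.single_le_sum (f := fun j => n₀ (L j)) (fun _ _ => Nat.zero_le _)
      (Finset.mem_range.2 (by omega))
  set Q := (c' + 1) * (8 * k + 36) * (4 * e ^ r) with hQ
  set K := 16 * (Q * 8 ^ r) + 400 * r + 8 * b + 100 with hK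
  obtain ⟨n, hn, hnN, hsig⟩ := exists_lens σ hσ t e r K (N + N₁ + c' + 8 * k + 40) hσ1 hσ2
  set ℓ := Nat.log 2 n + 1 with hℓ
  have hℓ1 : 1 ≤ ℓ := by omega
  have hn0 : lens σ n 0 = n := rfl
  have hnℓ : n < 2 ^ ℓ := Nat.lt_pow_succ_log_self (by norm_num) n
  have hnj : ∀ j ≤ r, lens σ n j < 2 ^ ℓ := fun j hj => lt_of_le_of_lt (hn.le j hj) hnℓ
  have hKℓ : K * ℓ ≤ n := hn.lg 0 (Nat.zero_le _)
  have hdata : ∀ j, j ≤ r → ∃ D al : List Bool,
      (∀ y : List Bool, y.length = lens σ n j → (evalDesc D y = true ↔ y ∈ (L j).1)) ∧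
      al.length ≤ a (lens σ n j) ∧
      (∀ (i : ℕ) (hi : i < D.length),
        (bits (List.replicate (lens σ n j) (), i, al) ∈ (W (L j)).1 ↔ D[i] = true)) ∧
      D.length ≤ (c' + 1) * (8 * k + 36) * (lens σ n j * σ (lens σ n j) ^ k * ℓ) := by
    intro j hj
    obtain ⟨C, al, hC1, hC2, hC3, hC4⟩ := hall (L j) (lens σ n j)
      ((hNj j hj).trans (by have := hn.ge j hj; omega))
    refine ⟨C.desc, al, fun y hy => ?_, hC3, hC4, ?_⟩
    · rw [evalDesc_desc]
      exact hC2 y hy
    · have hm1 : 1 ≤ lens σ n j := by have := hn.ge j hj; omega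
      have hs1 : 1 ≤ σ (lens σ n j) := by have := hsig j hj; omega
      have hms : 1 ≤ lens σ n j * σ (lens σ n j) ^ k :=
        Nat.mul_pos hm1 (Nat.pow_pos hs1)
      have h2 : C.size ≤ c' * (lens σ n j * σ (lens σ n j) ^ k) :=
        hC1.trans (Nat.mul_le_mul_right _ (hcj j hj))
      have h3 : C.size + 1 ≤ (c' + 1) * (lens σ n j * σ (lens σ n j) ^ k) := by
        rw [add_mul, one_mul]
        omega
      have h5 : lens σ n j + C.size ≤ 2 ^ ((k + 2) * ℓ) := by
        calc lens σ n j + C.size ≤ n + c' * (n * n ^ k) := by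
              refine Nat.add_le_add (hn.le j hj) (h2.trans (Nat.mul_le_mul_left _ ?_))
              exact Nat.mul_le_mul (hn.le j hj)
                (Nat.pow_le_pow_left ((hn.sle j hj).trans (hn.le j hj)) k)
          _ ≤ n * n ^ k + c' * (n * n ^ k) := by
              refine Nat.add_le_add_right (Nat.le_mul_of_pos_right _ (Nat.pow_pos ?_)) _
              omega
          _ = (c' + 1) * (n * n ^ k) := by ring
          _ ≤ n * (n * n ^ k) := Nat.mul_le_mul_right _ (by omega)
          _ = n ^ (k + 2) := by ring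
          _ ≤ (2 ^ ℓ) ^ (k + 2) := Nat.pow_le_pow_left hnℓ.le _
          _ = _ := by rw [← pow_mul, mul_comm]
      calc C.desc.length ≤ (C.size + 1) * (8 * ((k + 2) * ℓ) + 20) := length_desc C h5
        _ ≤ ((c' + 1) * (lens σ n j * σ (lens σ n j) ^ k)) * ((8 * k + 36) * ℓ) := by
          refine Nat.mul_le_mul h3 ?_
          nlinarith
        _ = _ := by ring
  choose! D al hD hal hW hDlen using hdata
  have hDb : ∀ j ≤ r, (D j).length ≤ n ^ b := by
    intro j hj
    calc (D j).length ≤ (c' + 1) * (8 * k + 36) * (lens σ n j * σ (lens σ n j) ^ k * ℓ) :=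
          hDlen j hj
      _ ≤ (c' + 1) * (8 * k + 36) * (n * n ^ k * ℓ) := by
          refine Nat.mul_le_mul_left _ (Nat.mul_le_mul_right _ (Nat.mul_le_mul (hn.le j hj) ?_))
          exact Nat.pow_le_pow_left ((hn.sle j hj).trans (hn.le j hj)) k
      _ = (c' + 1) * (((8 * k + 36) * ℓ) * (n * n ^ k)) := by ring
      _ ≤ n * (n * (n * n ^ k)) := by
          refine Nat.mul_le_mul (by omega) (Nat.mul_le_mul_right _ ?_)
          exact (Nat.mul_le_mul_right ℓ (by omega)).trans hKℓ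
      _ = n ^ b := by rw [hb]; ring
  have hsize : ∀ j ≤ r, (lens σ n j).size ≤ ℓ := fun j hj => Nat.size_le.2 (hnj j hj)
  have hsizeD : ∀ j ≤ r, ∀ i ≤ (D j).length, i.size ≤ b * ℓ + 1 := by
    intro j hj i hi
    refine Nat.size_le.2 ?_
    calc i ≤ n ^ b := hi.trans (hDb j hj)
      _ ≤ (2 ^ ℓ) ^ b := Nat.pow_le_pow_left hnℓ.le _
      _ = 2 ^ (b * ℓ) := by rw [← pow_mul, mul_comm]
      _ < 2 ^ (b * ℓ + 1) := Nat.pow_lt_pow_right (by norm_num) (by omega)
  have hal8 : ∀ j < r, 8 * (al j).length ≤ lens σ n (j + 1) := by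
    intro j hj
    have h1 := hN₁ (lens σ n j) (by have := hn.ge j hj.le; omega)
    have h2 : a (lens σ n j) ≤ lens σ n j / σ (lens σ n j) :=
      (Nat.le_div_iff_mul_le (by have := hsig j hj.le; omega)).2 h1
    have h3 := hal j hj.le
    change 8 * (al j).length ≤ 8 * (lens σ n j / σ (lens σ n j))
    omega
  have hKj : ∀ j ≤ r, (8 * b + 100) * ℓ ≤ lens σ n j := fun j hj =>
    (Nat.mul_le_mul_right _ (by omega)).trans (hn.lg j hj)
  refine contra e b r (fun j => lens σ n j) (fun j => (L j).1) (fun j => (W (L j)).1) D al hL0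
    (fun j _ => hLs j) hD (fun j hj => hW j hj.le) (fun j hj => hDb j hj.le) ?_
    (fun j hj => hn.pow j hj) ?_
  · intro j hj i hi
    rw [length_query]
    have h1 := hal8 j hj
    have h2 := hsize j hj.le
    have h3 := hsizeD j hj.le i hi.le
    have h4 := hKj (j + 1) hj
    change 2 * (lens σ n j).size + 2 * i.size + (al j).length + 2 + 1 ≤ lens σ n (j + 1)
    nlinarith
  · -- the code fits
    have hQ1 : 0 < Q * 8 ^ r := by
      have h1 := hn.lgs
      have h2 : e ^ r ≠ 0 := by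
        intro h
        rw [h] at h1
        omega
      rw [hQ]
      positivity
    have hKpos : 0 < K := by omega
    have hentry : ∀ E ∈ (List.range r).map (entry (fun j => lens σ n j) D al),
        sz E ≤ 32 * n / K := by
      intro E hE
      obtain ⟨j, hj, rfl⟩ := List.mem_map.1 hE
      rw [List.mem_range] at hj
      rw [Nat.le_div_iff_mul_le hKpos]
      have h0 : sz (entry (fun j => lens σ n j) D al j) ≤ 4 * lens σ n (j + 1) := by
        unfold entry
        simp only [sz_pair, sz_replicate_unit]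
        have h1 := hal8 j hj
        have h3 := sz_listBool_le (al j)
        have h4 := sz_nat_le (lens σ n j)
        have h5 := hsize j hj.le
        have h6 := sz_nat_le ((D j).length)
        have h7 := hsizeD j hj.le _ le_rfl
        have h8 := hKj (j + 1) hj
        nlinarith
      have h2 := hn.dec j hj
      have h3 := hn.le j hj.le
      have h4 := hsig j hj.le
      calc _ ≤ 4 * lens σ n (j + 1) * K := Nat.mul_le_mul_right _ h0
        _ ≤ 4 * lens σ n (j + 1) * σ (lens σ n j) := Nat.mul_le_mul_left _ h4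
        _ = 4 * (lens σ n (j + 1) * σ (lens σ n j)) := by ring
        _ ≤ 4 * (8 * n) := Nat.mul_le_mul_left _ (h2.trans (Nat.mul_le_mul_left _ h3))
        _ = 32 * n := by ring
    have h1 := sz_le_length_mul _ _ hentry
    rw [List.length_map, List.length_range] at h1
    have h2 := sz_listBool_le (D r)
    have h3 : (D r).length * 16 ≤ n := by
      have e1 : (D r).length ≤ Q * (lens σ n r * σ (lens σ n r) ^ (k + t)) := by
        calc (D r).length ≤ (c' + 1) * (8 * k + 36) *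
              (lens σ n r * σ (lens σ n r) ^ k * ℓ) := hDlen r le_rfl
          _ ≤ (c' + 1) * (8 * k + 36) * (lens σ n r * σ (lens σ n r) ^ k *
              (4 * e ^ r * σ (lens σ n r) ^ t)) :=
            Nat.mul_le_mul_left _ (Nat.mul_le_mul_left _ hn.lgs)
          _ = _ := by rw [hQ, pow_add]; ring
      have e2 : (D r).length * K ≤ (Q * 8 ^ r) * n := by
        calc (D r).length * K ≤ Q * (lens σ n r * σ (lens σ n r) ^ (k + t)) *
              σ (lens σ n r) := Nat.mul_le_mul e1 (hsig r le_rfl)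
          _ = Q * (lens σ n r * σ (lens σ n r) ^ r) := by rw [hr, pow_succ]; ring
          _ ≤ Q * (8 ^ r * n) := Nat.mul_le_mul_left _ hn.last
          _ = _ := by ring
      have e3 : (Q * 8 ^ r) * ((D r).length * 16) ≤ (Q * 8 ^ r) * n := by
        calc _ = (D r).length * (16 * (Q * 8 ^ r)) := by ring
          _ ≤ (D r).length * K := Nat.mul_le_mul_left _ (by omega)
          _ ≤ _ := e2
      exact Nat.le_of_mul_le_mul_left e3 hQ1
    have h4 : 400 * r * (32 * n / K) ≤ 32 * n := by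
      calc _ ≤ K * (32 * n / K) := Nat.mul_le_mul_right _ (by omega)
        _ ≤ 32 * n := Nat.mul_div_le _ _
    have h5 : 400 * r + 100 ≤ n := by
      have : K ≤ K * ℓ := Nat.le_mul_of_pos_right _ hℓ1
      omega
    rw [sz_pair]
    change _ ≤ n
    have h6 : r * (32 * n / K + 1) = r * (32 * n / K) + r := by ring
    have h7 : 400 * (r * (32 * n / K)) ≤ 32 * n := by
      calc _ = 400 * r * (32 * n / K) := by ring
        _ ≤ _ := h4
    omega

end Pool.Agent.NPC.H559U
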